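import Pool.Graph.R_pool_sql_team_seeded_843ab51a.V11256.SC.Main
import Pool.Graph.R_pool_sql_team_seeded_3997aac3.Q227.CG.Mem2
import Pool.Graph.R_seed8.H673R2.HardOn

/-!
# Clique graphs among the graphs in `3split_3` without twins and with closed triangles

Recognising clique graphs in `3split_3` remains NP-complete when different vertices of the stable
side have different neighbourhoods, and three vertices of the clique side which pairwise have a
common neighbour in the stable side have a common neighbour in the stable side.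
-/

set_option autoImplicit false

namespace Pool.Agent.Results.MP_aad05f_lc.TriangleClosed

open Pool.Agent.NPC Pool.Agent.H673R2 Pool.Agent.Q227.CG Pool.Agent.H679R2
open Pool.Agent.V11256 Pool.Agent.V11256.SC
open Pool.Agent.V11256.ST (LG)
open Pool.Agent.V11231.CSR (One3)

/-- No twins in the stable side, and closed triangles. -/
def Closed (I : Inst) : Prop :=
  (∀ s t : {v : ℕ // v ∈ I.1.1}, s.1 ∈ I.2 → t.1 ∈ I.2 →
    (∀ v, (toGraph I.1).Adj s v ↔ (toGraph I.1).Adj t v) → s = t) ∧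
  ∀ x y z : {v : ℕ // v ∈ I.1.1}, x.1 ∉ I.2 → y.1 ∉ I.2 → z.1 ∉ I.2 → x ≠ y → y ≠ z → x ≠ z →
    (∃ s, s.1 ∈ I.2 ∧ (toGraph I.1).Adj s x ∧ (toGraph I.1).Adj s y) →
    (∃ s, s.1 ∈ I.2 ∧ (toGraph I.1).Adj s y ∧ (toGraph I.1).Adj s z) →
    (∃ s, s.1 ∈ I.2 ∧ (toGraph I.1).Adj s x ∧ (toGraph I.1).Adj s z) →
    ∃ s, s.1 ∈ I.2 ∧ (toGraph I.1).Adj s x ∧ (toGraph I.1).Adj s y ∧ (toGraph I.1).Adj s z

/-- the instance without the list of the clique side -/
noncomputable def cv (L : TLs) : Inst := ((red L).1, (red L).2.2)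

theorem cliq_iso {W : Type} (H : SimpleGraph W) :
    Nonempty (SC.cliqueGraph H ≃g Pool.Agent.H601R2.PCG.cliqueGraph H) := by
  have h : ∀ s : Set W, Maximal (fun Q => H.IsClique Q) s ↔
      Pool.Agent.H601R2.PCG.IsMaxComplete H s := by
    intro s
    constructor
    · rintro ⟨h1, h2⟩
      exact ⟨h1, fun t ht hst => Set.Subset.antisymm (h2 ht hst) hst⟩
    · rintro ⟨h1, h2⟩
      exact ⟨h1, fun t ht hst => (h2 t ht hst).le⟩
  refine ⟨⟨Equiv.subtypeEquivRight h, ?_⟩⟩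
  intro a b
  constructor
  · rintro ⟨h1, h2⟩
    exact ⟨fun e => h1 (by rw [e]), h2⟩
  · rintro ⟨h1, h2⟩
    exact ⟨fun e => h1 ((Equiv.subtypeEquivRight h).injective e), h2⟩

theorem kt_of {L : TLs} (v : {v : ℕ // v ∈ (red L).1.1}) (h : v.1 ∉ (red L).2.2) :
    ∃ n : Kt L, v = isoG L (Sum.inl n) := by
  have h1 : v.1 ∈ KL L ++ SL L := v.2
  rw [List.mem_append] at h1
  obtain ⟨n, hn⟩ := mem_KL.1 (h1.resolve_right h)
  exact ⟨n, Subtype.ext hn⟩

theorem st_of {L : TLs} (v : {v : ℕ // v ∈ (red L).1.1}) (h : v.1 ∈ (red L).2.2) :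
    ∃ t : St L, v = isoG L (Sum.inr t) := by
  obtain ⟨t, ht⟩ := mem_SL.1 (show v.1 ∈ SL L from h)
  exact ⟨t, Subtype.ext ht⟩

theorem adj_iff {L : TLs} (t : St L) (n : Kt L) :
    (toGraph (red L).1).Adj (isoG L (Sum.inr t)) (isoG L (Sum.inl n)) ↔ n ∈ Nt L t :=
  (isoG L).map_adj_iff (v := Sum.inr t) (w := Sum.inl n)

theorem threeSplit {L : TLs} (hL : PrT L) : ThreeSplit3 (cv L) := by
  obtain ⟨h1, _, h3, h4, h5⟩ := split3_red hL
  refine ⟨fun u v hu hv => h4 u v hu hv, fun u v hu hv huv => ?_, fun u hu => h5 u hu⟩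
  exact h3 u v (((h1 u.1).1 u.2).resolve_right hu) (((h1 v.1).1 v.2).resolve_right hv) huv

/-- the number is in the triple -/
def In (a : ℕ) (t : ℕ × ℕ × ℕ) : Prop := a = t.1 ∨ a = t.2.1 ∨ a = t.2.2

theorem tri {L : TLs} (hL : PrT L) {a b c : ℕ} (h1 : a ≠ b) (h2 : b ≠ c) (h3 : a ≠ c)
    (hab : ∃ t ∈ L, In a t ∧ In b t) (hbc : ∃ t ∈ L, In b t ∧ In c t)
    (hac : ∃ t ∈ L, In a t ∧ In c t) : ∃ t ∈ L, In a t ∧ In b t ∧ In c t := by
  have sy : ∀ {x y : ℕ}, (∃ t ∈ L, In x t ∧ In y t) → ∃ t ∈ L, In y t ∧ In x t :=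
    fun ⟨t, ht, p, q⟩ => ⟨t, ht, q, p⟩
  have key := hL.2.2.2
  rcases lt_or_gt_of_ne h1 with g1 | g1 <;> rcases lt_or_gt_of_ne h2 with g2 | g2 <;>
    rcases lt_or_gt_of_ne h3 with g3 | g3
  · exact ⟨_, key a b c g1 g2 hab hbc hac, by simp [In]⟩
  · omega
  · exact ⟨_, key a c b g3 g2 hac (sy hbc) hab, by simp [In]⟩
  · exact ⟨_, key c a b g3 g1 (sy hac) hab (sy hbc), by simp [In]⟩
  · exact ⟨_, key b a c g1 g3 (sy hab) hac hbc, by simp [In]⟩
  · exact ⟨_, key b c a g2 g3 hbc (sy hac) (sy hab), by simp [In]⟩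
  · omega
  · exact ⟨_, key c b a g2 g1 (sy hbc) (sy hab) (sy hac), by simp [In]⟩

theorem closed {L : TLs} (hL : PrT L) : Closed (cv L) := by
  constructor
  · intro s t hs ht h
    obtain ⟨s, rfl⟩ := st_of s hs
    obtain ⟨t, rfl⟩ := st_of t ht
    have : s = t := by
      refine Nt_inj hL ?_
      ext n
      rw [← adj_iff, ← adj_iff]
      exact h _
    rw [this]
  · intro x y z hx hy hz hxy hyz hxz h1 h2 h3
    obtain ⟨a, rfl⟩ := kt_of x hx
    obtain ⟨b, rfl⟩ := kt_of y hy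
    obtain ⟨c, rfl⟩ := kt_of z hz
    have w : ∀ {p q : Kt L}, (∃ s, s.1 ∈ (cv L).2 ∧ (toGraph (cv L).1).Adj s (isoG L (Sum.inl p)) ∧
        (toGraph (cv L).1).Adj s (isoG L (Sum.inl q))) → ∃ t ∈ L, In p.1 t ∧ In q.1 t := by
      rintro p q ⟨s, hs, e1, e2⟩
      obtain ⟨t, rfl⟩ := st_of s hs
      exact ⟨t.1, t.2, mem_Nt.1 ((adj_iff t p).1 e1), mem_Nt.1 ((adj_iff t q).1 e2)⟩
    obtain ⟨t, ht, i1, i2, i3⟩ := tri hL (a := a.1) (b := b.1) (c := c.1)
      (fun e => hxy (by rw [Subtype.ext e])) (fun e => hyz (by rw [Subtype.ext e]))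
      (fun e => hxz (by rw [Subtype.ext e])) (w h1) (w h2) (w h3)
    refine ⟨isoG L (Sum.inr ⟨t, ht⟩), ?_, (adj_iff _ a).2 (mem_Nt.2 i1),
      (adj_iff _ b).2 (mem_Nt.2 i2), (adj_iff _ c).2 (mem_Nt.2 i3)⟩
    exact mem_SL.2 ⟨⟨t, ht⟩, rfl⟩

theorem cg_iff' {L : TLs} (hL : PrT L) : SC.IsCliqueGraph (ST.gr (red L).1) ↔
    Pool.Agent.H601R2.PCG.IsCliqueGraph (toGraph (red L).1) := by
  constructor
  · rintro ⟨W, hW, _, H, ⟨e⟩⟩
    obtain ⟨e'⟩ := cliq_iso H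
    exact ⟨W, hW, H, ⟨SimpleGraph.Iso.comp e' e⟩⟩
  · rintro ⟨W, hW, H, ⟨e⟩⟩
    obtain ⟨e'⟩ := cliq_iso H
    rcases isEmpty_or_nonempty W with hE | hN
    · exfalso
      obtain ⟨t, ht⟩ := List.exists_mem_of_ne_nil L hL.2.2.1
      have ho := hL.1 t ht
      have hu : isoG L (Sum.inl ⟨t.1, mem_ent.2 ⟨_, ht, Or.inl rfl⟩⟩) =
          isoG L (Sum.inl ⟨t.2.1, mem_ent.2 ⟨_, ht, Or.inr (Or.inl rfl)⟩⟩) :=
        e.injective (Subtype.ext (Set.ext fun w => (hE.false w).elim))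
      have h2 := (isoG L).injective hu
      simp only [Sum.inl.injEq, Subtype.mk.injEq] at h2
      omega
    · exact ⟨W, hW, hN, H, ⟨SimpleGraph.Iso.comp e'.symm e⟩⟩

theorem poly_cv : NPC.Poly (fun ψ : TLs => cv (tls ψ)) := by
  have h := red_poly.comp tls_poly
  exact NPC.Poly.pair (NPC.Poly.fst h) (NPC.Poly.snd (NPC.Poly.snd h))

/-- Recognising clique graphs in `3split_3` is in NP, and every language in NP has a
polynomial-time many-one reduction to it all of whose values are graphs of `3split_3` (with their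
partitions) which satisfy `Closed`. -/
theorem result : InNPP CliqueGraph3 ∧
    NPHardOn (fun I => ThreeSplit3 I ∧ Closed I) CliqueGraph3 := by
  refine ⟨inNPP_cg, ?_⟩
  refine npHardOn_of hardPr_One3ne (f := fun ψ => cv (tls ψ)) poly_cv
    (fun ψ hψ => ⟨threeSplit (prT_tls hψ), closed (prT_tls hψ)⟩) (fun ψ hψ => ?_)
  rw [one3_iff, ← pairP_iff, ← clique_iff (prT_tls hψ)]
  have h1 : SC.IsCliqueGraph (splitG (Nt (tls ψ))) ↔ SC.IsCliqueGraph (ST.gr (red (tls ψ)).1) :=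
    ⟨fun h => h.of_iso (isoG _), fun h => h.of_iso (isoG _).symm⟩
  rw [h1, cg_iff' (prT_tls hψ)]
  exact ⟨fun h => ⟨threeSplit (prT_tls hψ), h⟩, fun h => h.2⟩

end Pool.Agent.Results.MP_aad05f_lc.TriangleClosed
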